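import Pool.Agent.W684.SG.Stm

/-!
# Project SG: the complexity estimate (S_CPX)
-/

set_option autoImplicit false

namespace Pool.Agent.W684.SG

open Cardinal MeasureTheory Pool.Agent.Helper669.Forcing

namespace Cpx575

/-- closed sets of pairs `(t, w)` (finitely many coordinates refute membership) -/
def Clo {J V : Type} (P : (ℕ → Prop) → (J → V) → Prop) : Prop :=
  ∀ t w, ¬ P t w → ∃ (N : ℕ) (F : Finset J), ∀ t' w', (∀ i < N, (t' i ↔ t i)) →
    (∀ j ∈ F, w' j = w j) → ¬ P t' w'

theorem code_nat (P : (ℕ → Prop) → (ℕ → ℕ) → Prop) (hP : Clo P) :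
    ∃ y1 : Finset ℕ → List ℕ → Prop, ∀ t : ℕ → Prop, InAn t y1 ↔ ∃ w, P t w := by
  classical
  refine ⟨fun a l => ∃ t' w', P t' w' ∧ (∀ i, i ∈ a ↔ i < l.length ∧ t' i) ∧
    ∀ i, i < l.length → w' i = l.getD i 0, fun t => ⟨?_, ?_⟩⟩
  · rintro ⟨w, hw⟩
    refine ⟨w, ?_⟩
    by_contra hn
    obtain ⟨N, F, hF⟩ := hP t w hn
    set M := N + (F.sup id + 1) with hM
    obtain ⟨t', w', h1, h2, h3⟩ := hw ((Finset.range M).filter fun i => t i)
      ((List.range M).map w) (by intro i; simp) (by
        intro i hi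
        have hi' : i < M := by simpa using hi
        simp [List.getD_eq_getElem?_getD, hi'])
    refine hF t' w' ?_ ?_ h1
    · intro i hi
      have hi' : i < M := by omega
      have := h2 i
      simp only [Finset.mem_filter, Finset.mem_range, List.length_map, List.length_range] at this
      tauto
    · intro j hj
      have hj' : j < M := by
        have : j ≤ F.sup id := Finset.le_sup (f := id) hj
        omega
      have := h3 j (by simpa using hj')
      simpa [List.getD_eq_getElem?_getD, hj'] using this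
  · rintro ⟨w, hw⟩
    exact ⟨w, fun a l ha hl => ⟨t, w, hw, ha, hl⟩⟩

theorem code_gen {J V : Type} [Countable J] [Countable V] [Nonempty V]
    (P : (ℕ → Prop) → (J → V) → Prop) (hP : Clo P) :
    ∃ y1 : Finset ℕ → List ℕ → Prop, ∀ t : ℕ → Prop, InAn t y1 ↔ ∃ w, P t w := by
  classical
  obtain ⟨eJ, heJ⟩ := exists_injective_nat J
  obtain ⟨gV, hgV⟩ := exists_surjective_nat V
  obtain ⟨y1, h1⟩ := code_nat (fun t w => P t (fun j => gV (w (eJ j)))) (by
    intro t w hn
    obtain ⟨N, F, hF⟩ := hP t _ hn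
    refine ⟨N, F.image eJ, fun t' w' h1 h2 => hF _ _ h1 fun j hj => ?_⟩
    rw [h2 (eJ j) (Finset.mem_image_of_mem _ hj)])
  refine ⟨y1, fun t => (h1 t).trans ⟨?_, ?_⟩⟩
  · rintro ⟨w, hw⟩
    exact ⟨_, hw⟩
  · rintro ⟨w, hw⟩
    choose r hr using hgV
    refine ⟨fun i => if h : ∃ j, eJ j = i then r (w h.choose) else 0, ?_⟩
    convert hw using 2
    rename_i j
    have hj : ∃ j', eJ j' = eJ j := ⟨j, rfl⟩
    dsimp only
    rw [dif_pos hj, hr, heJ hj.choose_spec]

theorem clo_and {J V : Type} {P Q : (ℕ → Prop) → (J → V) → Prop} (hP : Clo P) (hQ : Clo Q) :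
    Clo (fun t w => P t w ∧ Q t w) := by
  intro t w hn
  by_cases h : P t w
  · obtain ⟨N, F, hF⟩ := hQ t w (fun hq => hn ⟨h, hq⟩)
    exact ⟨N, F, fun t' w' h1 h2 h3 => hF t' w' h1 h2 h3.2⟩
  · obtain ⟨N, F, hF⟩ := hP t w h
    exact ⟨N, F, fun t' w' h1 h2 h3 => hF t' w' h1 h2 h3.1⟩

theorem clo_all {J V I : Type} {P : I → (ℕ → Prop) → (J → V) → Prop} (hP : ∀ i, Clo (P i)) :
    Clo (fun t w => ∀ i, P i t w) := by
  intro t w hn
  push Not at hn
  obtain ⟨i, hi⟩ := hn
  obtain ⟨N, F, hF⟩ := hP i t w hi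
  exact ⟨N, F, fun t' w' h1 h2 h3 => hF t' w' h1 h2 (h3 i)⟩

section

variable {K : Type} (S : Set K)

/-- the index type -/
abbrev J : Type := (S × ℕ) ⊕ ℕ ⊕ (ℕ × Finset (S × ℕ)) ⊕ (S × ℕ)

/-- the value type -/
abbrev V : Type := Option Bool × Finset (S × ℕ) × ℕ

variable {S}

def ws (w : J S → V S) (d : S × ℕ) : Option Bool := (w (Sum.inl d)).1
def wE (w : J S → V S) (i : ℕ) : Finset (S × ℕ) := (w (Sum.inr (Sum.inl i))).2.1
def wv (w : J S → V S) (i : ℕ) (u : Finset (S × ℕ)) : ℕ :=
  (w (Sum.inr (Sum.inr (Sum.inl (i, u))))).2.2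
def wk (w : J S → V S) (d : S × ℕ) : ℕ := (w (Sum.inr (Sum.inr (Sum.inr d)))).2.2

def mk (s : S × ℕ → Option Bool) (E : ℕ → Finset (S × ℕ)) (v : ℕ → Finset (S × ℕ) → ℕ)
    (k : S × ℕ → ℕ) : J S → V S :=
  Sum.elim (fun d => (s d, ∅, 0)) (Sum.elim (fun i => (none, E i, 0))
    (Sum.elim (fun p => (none, ∅, v p.1 p.2)) (fun d => (none, ∅, k d))))

/-- the embedding -/
def emb (S : Set K) (d : S × ℕ) : K × ℕ := (d.1.1, d.2)

theorem emb_inj (S : Set K) : Function.Injective (emb S) := by
  rintro ⟨⟨a, ha⟩, n⟩ ⟨⟨b, hb⟩, m⟩ h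
  simp only [emb, Prod.mk.injEq] at h
  obtain ⟨rfl, rfl⟩ := h
  rfl

open Classical in
/-- extension of a function -/
noncomputable def ext (z0 : K × ℕ → Bool) (z : S × ℕ → Bool) (d : K × ℕ) : Bool :=
  if h : d.1 ∈ S then z (⟨d.1, h⟩, d.2) else z0 d

theorem ext_emb (z0 : K × ℕ → Bool) (z : S × ℕ → Bool) (d : S × ℕ) :
    ext z0 z (emb S d) = z d := by
  unfold ext
  rw [dif_pos (show (emb S d).1 ∈ S from d.1.2)]
  rfl

theorem ext_not (z0 : K × ℕ → Bool) (z : S × ℕ → Bool) (d : K × ℕ) (h : d.1 ∉ S) :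
    ext z0 z d = z0 d := by
  unfold ext
  rw [dif_neg h]

theorem exists_emb {d : K × ℕ} (h : d.1 ∈ S) : ∃ d' : S × ℕ, emb S d' = d :=
  ⟨(⟨d.1, h⟩, d.2), rfl⟩

/-- the condition on the coded functions -/
def Q (q : Cond K) (α : K) (hα : α ∈ S) (e : ℕ → ℕ) (R : (K × ℕ → Bool) → List ℕ → Prop)
    (t : ℕ → Prop) (w : J S → V S) : Prop :=
  ((∀ d : S × ℕ, ∀ b, q.val d.1.1 d.2 = some b → ws w d = some b) ∧
    (∀ i, (t i → ws w (⟨α, hα⟩, e i) = some true) ∧
      (¬ t i → ws w (⟨α, hα⟩, e i) = some false))) ∧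
  ((∀ d : S × ℕ, d.2 ≤ wk w d ∧ ws w (d.1, wk w d) = none) ∧
    ∀ l : List ℕ, ∀ z : S × ℕ → Bool, (∀ d b, ws w d = some b → z d = b) →
      (∀ i, i < l.length → l.getD i 0 = wv w i ((wE w i).filter fun d => z d = true)) →
        R (ext (fun _ => false) z) l)

theorem clo_Q (q : Cond K) (α : K) (hα : α ∈ S) (e : ℕ → ℕ)
    (R : (K × ℕ → Bool) → List ℕ → Prop)
    (hR : ∀ l, ∃ G : Finset (K × ℕ), (∀ d ∈ G, d.1 ∈ S) ∧
      ∀ z z' : K × ℕ → Bool, (∀ d ∈ G, z d = z' d) → R z l → R z' l) :
    Clo (Q q α hα e R) := by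
  classical
  refine clo_and (clo_and ?_ ?_) (clo_and ?_ ?_)
  · refine clo_all fun d => ?_
    intro t w hn
    refine ⟨0, {Sum.inl d}, fun t' w' _ h2 h3 => hn ?_⟩
    dsimp only at h3 ⊢
    have : ws w' d = ws w d := by
      unfold ws
      rw [h2 _ (by simp)]
    rw [← this]
    exact h3
  · refine clo_all fun i => ?_
    intro t w hn
    refine ⟨i + 1, {Sum.inl (⟨α, hα⟩, e i)}, fun t' w' h1 h2 h3 => hn ?_⟩
    dsimp only at h3 ⊢
    have : ws w' (⟨α, hα⟩, e i) = ws w (⟨α, hα⟩, e i) := by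
      unfold ws
      rw [h2 _ (by simp)]
    have h4 := h1 i (by omega)
    rw [← this, ← h4]
    exact h3
  · refine clo_all fun d => ?_
    intro t w hn
    refine ⟨0, {Sum.inr (Sum.inr (Sum.inr d)), Sum.inl (d.1, wk w d)},
      fun t' w' _ h2 h3 => hn ?_⟩
    dsimp only at h3 ⊢
    have h4 : wk w' d = wk w d := by
      unfold wk
      rw [h2 _ (by simp)]
    have h5 : ws w' (d.1, wk w d) = ws w (d.1, wk w d) := by
      unfold ws
      rw [h2 _ (by simp)]
    rw [h4, h5] at h3
    exact h3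
  · refine clo_all fun l => ?_
    intro t w hn
    push Not at hn
    obtain ⟨z, hz, hl, hnR⟩ := hn
    obtain ⟨G, hGS, hG⟩ := hR l
    set H : Finset (S × ℕ) := G.preimage (emb S) (emb_inj S).injOn ∪
      (Finset.range l.length).biUnion (wE w) with hH
    refine ⟨0, H.image Sum.inl ∪ ((Finset.range l.length).image fun i => Sum.inr (Sum.inl i)) ∪
      ((Finset.range l.length).image fun i => Sum.inr (Sum.inr (Sum.inl
        (i, (wE w i).filter fun d => z d = true)))), fun t' w' _ h2 h3 => ?_⟩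
    have hs : ∀ d ∈ H, ws w' d = ws w d := by
      intro d hd
      unfold ws
      rw [h2]
      simp only [Finset.mem_union, Finset.mem_image]
      exact Or.inl (Or.inl ⟨d, hd, rfl⟩)
    have hE : ∀ i < l.length, wE w' i = wE w i := by
      intro i hi
      unfold wE
      rw [h2]
      simp only [Finset.mem_union, Finset.mem_image, Finset.mem_range]
      exact Or.inl (Or.inr ⟨i, hi, rfl⟩)
    have hv : ∀ i < l.length, wv w' i ((wE w i).filter fun d => z d = true) =
        wv w i ((wE w i).filter fun d => z d = true) := by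
      intro i hi
      unfold wv
      rw [h2]
      simp only [Finset.mem_union, Finset.mem_image, Finset.mem_range]
      exact Or.inr ⟨i, hi, rfl⟩
    set z' : S × ℕ → Bool := fun d => if d ∈ H then z d else (ws w' d).getD false with hz'
    refine hnR (hG (ext (fun _ => false) z') _ ?_ (h3 z' ?_ ?_))
    · intro d hd
      obtain ⟨d', rfl⟩ := exists_emb (hGS d hd)
      rw [ext_emb, ext_emb]
      have : d' ∈ H := by
        rw [hH]
        exact Finset.mem_union_left _ (Finset.mem_preimage.2 hd)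
      simp only [hz', this, if_true]
    · intro d b hb
      by_cases hd : d ∈ H
      · simp only [hz', hd, if_true]
        rw [hs d hd] at hb
        exact hz d b hb
      · simp only [hz', hd, if_false, hb, Option.getD_some]
    · intro i hi
      rw [hl i hi, hE i hi, ← hv i hi]
      congr 1
      refine Finset.filter_congr fun d hd => ?_
      have : d ∈ H := by
        rw [hH]
        exact Finset.mem_union_right _ (Finset.mem_biUnion.2 ⟨i, Finset.mem_range.2 hi, hd⟩)
      simp only [hz', this, if_true]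

end

end Cpx575

open Cpx575 in
/-- **S_CPX**: the complexity estimate. -/
theorem cpx0 : S_CPX := by
  classical
  intro K q α e S R hS hα hq hR
  have : Countable S := hS.to_subtype
  have : Countable (J S) := inferInstance
  have : Countable (V S) := inferInstance
  obtain ⟨y1, hy1⟩ := code_gen (Q q α hα e R) (clo_Q q α hα e R hR)
  refine ⟨y1, fun t => (hy1 t).trans ⟨?_, ?_⟩⟩
  · rintro ⟨w, ⟨h1, h2⟩, h3, h4⟩
    set s : Cond K :=
      { val := fun k n => if h : k ∈ S then ws w (⟨k, h⟩, n) else none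
        cnt := by
          refine hS.mono ?_
          rintro k ⟨n, hn⟩
          by_contra hk
          simp [hk] at hn
        inf := by
          intro k N
          by_cases hk : k ∈ S
          · refine ⟨wk w (⟨k, hk⟩, N), (h3 (⟨k, hk⟩, N)).1, ?_⟩
            rw [dif_pos hk]
            exact (h3 (⟨k, hk⟩, N)).2
          · exact ⟨N, le_refl _, dif_neg hk⟩ } with hs
    have hsv : ∀ d : S × ℕ, s.val d.1.1 d.2 = ws w d := by
      intro d
      simp only [hs]
      rw [dif_pos d.1.2]
    refine ⟨s, fun i => (wE w i).image (emb S),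
      fun i u => wv w i (u.preimage (emb S) (emb_inj S).injOn), ?_, ?_, ?_⟩
    · intro i
      have := hsv (⟨α, hα⟩, e i)
      simp only at this
      rw [this]
      exact h2 i
    · intro k n b hb
      have hk : k ∈ S := hq k n (by rw [hb]; simp)
      have := hsv (⟨k, hk⟩, n)
      simp only at this
      rw [this]
      exact h1 (⟨k, hk⟩, n) b hb
    · intro z hz l hl
      obtain ⟨G, hGS, hG⟩ := hR l
      refine hG (ext (fun _ => false) (z ∘ emb S)) z ?_ (h4 l (z ∘ emb S) ?_ ?_)
      · intro d hd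
        obtain ⟨d', rfl⟩ := exists_emb (hGS d hd)
        rw [ext_emb]
        rfl
      · intro d b hb
        exact hz _ _ _ (by rw [hsv]; exact hb)
      · intro i hi
        rw [hl i hi]
        refine congrArg (wv w i) ?_
        ext d
        simp only [Finset.mem_preimage, Finset.mem_filter, Finset.mem_image, Function.comp]
        constructor
        · rintro ⟨⟨d', hd', h⟩, h'⟩
          rw [emb_inj S h] at hd'
          exact ⟨hd', h'⟩
        · rintro ⟨h, h'⟩
          exact ⟨⟨d, h, rfl⟩, h'⟩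
  · rintro ⟨s, EW, vw, h1, h2, h3⟩
    have hinf : ∀ d : S × ℕ, ∃ n, d.2 ≤ n ∧ s.val d.1.1 n = none := fun d => s.inf _ _
    choose sk hsk using hinf
    set z0 : K × ℕ → Bool := fun d => (s.val d.1 d.2).getD false with hz0
    refine ⟨mk (fun d => s.val d.1.1 d.2) (fun i => (EW i).preimage (emb S) (emb_inj S).injOn)
      (fun i u => vw i (u.image (emb S) ∪ (EW i).filter fun d => d.1 ∉ S ∧ z0 d = true)) sk,
      ⟨?_, ?_⟩, ?_, ?_⟩
    · intro d b hb
      exact h2 _ _ _ hb
    · intro i
      exact h1 i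
    · intro d
      exact hsk d
    · intro l z hz hl
      have key : R (ext z0 z) l := by
        refine h3 (ext z0 z) ?_ l ?_
        · intro k n b hb
          by_cases hk : k ∈ S
          · have := ext_emb (S := S) z0 z (⟨k, hk⟩, n)
            simp only [emb] at this
            rw [this]
            exact hz (⟨k, hk⟩, n) b hb
          · rw [ext_not _ _ _ hk]
            simp only [hz0, hb, Option.getD_some]
        · intro i hi
          rw [hl i hi]
          change vw i _ = vw i _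
          congr 1
          ext d
          simp only [Finset.mem_union, Finset.mem_image, Finset.mem_filter]
          constructor
          · rintro (⟨d', ⟨hd', hz'⟩, rfl⟩ | ⟨hd, hn, hz'⟩)
            · refine ⟨(Finset.mem_preimage (hf := (emb_inj S).injOn)).1 hd', ?_⟩
              rw [ext_emb]
              exact hz'
            · refine ⟨hd, ?_⟩
              rw [ext_not _ _ _ hn]
              exact hz'
          · rintro ⟨hd, hz'⟩
            by_cases hk : d.1 ∈ S
            · obtain ⟨d', rfl⟩ := exists_emb hk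
              rw [ext_emb] at hz'
              exact Or.inl ⟨d', ⟨(Finset.mem_preimage (hf := (emb_inj S).injOn)).2 hd, hz'⟩, rfl⟩
            · rw [ext_not _ _ _ hk] at hz'
              exact Or.inr ⟨hd, hk, hz'⟩
      obtain ⟨G, hGS, hG⟩ := hR l
      refine hG _ _ ?_ key
      intro d hd
      obtain ⟨d', rfl⟩ := exists_emb (hGS d hd)
      rw [ext_emb, ext_emb]

/-- S_CPX in the requested form. -/
theorem cpx (_hC : S_CODE) : S_CPX := cpx0

end Pool.Agent.W684.SG

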